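import Pool.Agent.L0h38.GI.Stm5
import Pool.Agent.L0h57.GI.ALGG
import Pool.Agent.L0h72.GI.BAD
import Pool.Agent.Q32.DP.PRODL
import Pool.Agent.Q32.DP.PROD2

/-!
# Project GI3, module REN
-/

set_option autoImplicit false

namespace Pool.Agent.L0h61.GI

open Pool.Agent.L0h38.GI Pool.Agent.Q223.IS Pool.Agent.Q32.DP Pool.Agent.Q32.DP.ALG
open Pool.Agent.Helper926
open Pool.Agent.L0h72.GI.BAD (adj adj_cp gr_adj getD_fin LG)

/-- the presentations of the products: recursively enumerable -/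
theorem re_prods {C : Pres → Prop} (hC : REPred C) : REPred (Prods C C) := by
  obtain ⟨P, hP, hP2⟩ := PRODL.t PROD2.t
  have h1 : ∀ p : Pres, (∃ x : Pres × List Pres, (C x.1 ∧ ∀ k ∈ x.2, C k) ∧ IsoP (p, P x)) ↔
      Prods C C p := by
    intro p
    constructor
    · rintro ⟨⟨a, L⟩, ⟨ha, hL⟩, ⟨⟨u⟩⟩⟩
      obtain ⟨w⟩ := hP2 a L
      exact ⟨a, L, ha, hL, ⟨u.trans w⟩⟩
    · rintro ⟨a, L, ha, hL, ⟨u⟩⟩
      obtain ⟨w⟩ := hP2 a L
      exact ⟨(a, L), ⟨ha, hL⟩, ⟨⟨u.trans w.symm⟩⟩⟩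
  refine REPred.of_eq ?_ h1
  refine RE.ex (p := fun p (x : Pres × List Pres) => (C x.1 ∧ ∀ k ∈ x.2, C k) ∧ IsoP (p, P x)) ?_
  have c1 : Computable fun z : Pres × (Pres × List Pres) => z.2.1 :=
    Computable.fst.comp Computable.snd
  have c2 : Computable fun z : Pres × (Pres × List Pres) => z.2.2 :=
    Computable.snd.comp Computable.snd
  have c3 : Computable fun z : Pres × (Pres × List Pres) => (z.1, P z.2) :=
    Computable.fst.pair (hP.to_comp.comp Computable.snd)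
  refine RE.and (RE.and (RE.comp (p := C) hC c1) ?_) (RE.comp (p := IsoP) re_iso c3)
  exact RE.all_mem (p := fun (_ : Pres × (Pres × List Pres)) k => C k)
    (RE.comp (p := C) hC Computable.snd) c2

/-- separation of two vertices by a third one -/
def sep (E : List (ℕ × ℕ)) (i j u : ℕ) : Prop :=
  (u ≠ i ∧ u ≠ j) ∧ ((adj E i u ∧ ¬ adj E j u) ∨ (¬ adj E i u ∧ adj E j u))

/-- the condition for two vertices -/
def tw (x : LG) (i j : ℕ) : Prop :=
  (¬ adj x.2 i j ∨ ∃ u, u < x.1.length ∧ sep x.2 i j u) ∨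
    (IsZ (PG (x.1.getD i (0, []))) ∨ IsZ (PG (x.1.getD j (0, []))))

theorem notw_iff (x : LG) :
    NoTw (gr x.2 x.1.length) (fun i : Fin x.1.length => PG (x.1.get i)) ↔
      ∀ i, i < x.1.length → ∀ j, j < x.1.length → tw x i j := by
  constructor
  · intro h i hi j hj
    unfold tw
    have e1 : x.1.getD i (0, []) = x.1.get ⟨i, hi⟩ := getD_fin x.1 ⟨i, hi⟩
    have e2 : x.1.getD j (0, []) = x.1.get ⟨j, hj⟩ := getD_fin x.1 ⟨j, hj⟩
    rw [e1, e2]
    by_cases ht : Twin (gr x.2 x.1.length) ⟨i, hi⟩ ⟨j, hj⟩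
    · exact Or.inr (h ⟨i, hi⟩ ⟨j, hj⟩ ht)
    · left
      by_cases ha : adj x.2 i j
      · right
        have ha' : (gr x.2 x.1.length).Adj ⟨i, hi⟩ ⟨j, hj⟩ := (gr_adj _ _ _ _).2 ha
        have h1 : ¬ ∀ u, u ≠ (⟨i, hi⟩ : Fin x.1.length) → u ≠ ⟨j, hj⟩ →
            ((gr x.2 x.1.length).Adj ⟨i, hi⟩ u ↔ (gr x.2 x.1.length).Adj ⟨j, hj⟩ u) :=
          fun h2 => ht ⟨ha', h2⟩
        push Not at h1
        obtain ⟨u, h2, h3, h4⟩ := h1
        rw [gr_adj, gr_adj] at h4
        refine ⟨u.1, u.2, ⟨fun h5 => h2 (Fin.ext h5), fun h5 => h3 (Fin.ext h5)⟩, ?_⟩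
        simp only at h4
        tauto
      · exact Or.inl ha
  · intro h v w ht
    rcases h v.1 v.2 w.1 w.2 with (h1 | ⟨u, hu, ⟨h1, h2⟩, h3⟩) | h1
    · exact absurd ((gr_adj _ _ _ _).1 ht.1) h1
    · have h4 := ht.2 ⟨u, hu⟩ (fun h5 => h1 (congrArg Fin.val h5))
        (fun h5 => h2 (congrArg Fin.val h5))
      rw [gr_adj, gr_adj] at h4
      simp only at h4
      tauto
    · rw [getD_fin, getD_fin] at h1
      exact h1

theorem re_tw : REPred fun z : (LG × ℕ) × ℕ => tw z.1.1 z.1.2 z.2 := by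
  have hL : Computable fun z : (LG × ℕ) × ℕ => z.1.1.1 :=
    Computable.fst.comp (Computable.fst.comp Computable.fst)
  have hE : Computable fun z : (LG × ℕ) × ℕ => z.1.1.2 :=
    Computable.snd.comp (Computable.fst.comp Computable.fst)
  have hi : Computable fun z : (LG × ℕ) × ℕ => z.1.2 := Computable.snd.comp Computable.fst
  have hj : Computable fun z : (LG × ℕ) × ℕ => z.2 := Computable.snd
  have hn : Computable fun z : (LG × ℕ) × ℕ => z.1.1.1.length := Computable.list_length.comp hL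
  have gi : Computable fun z : (LG × ℕ) × ℕ => z.1.1.1.getD z.1.2 ((0, []) : Pres) :=
    (Primrec.list_getD ((0, []) : Pres)).to_comp.comp hL hi
  have gj : Computable fun z : (LG × ℕ) × ℕ => z.1.1.1.getD z.2 ((0, []) : Pres) :=
    (Primrec.list_getD ((0, []) : Pres)).to_comp.comp hL hj
  have hz : ∀ {g : (LG × ℕ) × ℕ → Pres}, Computable g → REPred fun z => IsZ (PG (g z)) := by
    intro g hg
    have h1 : REPred fun z : (LG × ℕ) × ℕ => IsoP (g z, ((1, []) : Pres)) :=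
      RE.comp (p := IsoP) re_iso (hg.pair (Computable.const ((1, []) : Pres)))
    exact h1.of_eq fun z => (Pool.Agent.L0h57.GI.isZ_iff (g z)).symm
  unfold tw
  refine RE.or (RE.of_comput (RE.cp_or (RE.cp_not (adj_cp hE hi hj)) ?_)) (RE.or (hz gi) (hz gj))
  refine RE.cp_ex_lt (p := fun (z : (LG × ℕ) × ℕ) u => sep z.1.1.2 z.1.2 z.2 u) ?_ hn
  unfold sep
  have f : Computable fun y : ((LG × ℕ) × ℕ) × ℕ => y.1 := Computable.fst
  have u : Computable fun y : ((LG × ℕ) × ℕ) × ℕ => y.2 := Computable.snd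
  refine RE.cp_and (RE.cp_and (RE.cp_not (RE.cp_eq u (hi.comp f)))
    (RE.cp_not (RE.cp_eq u (hj.comp f)))) (RE.cp_or ?_ ?_)
  · exact RE.cp_and (adj_cp (hE.comp f) (hi.comp f) u)
      (RE.cp_not (adj_cp (hE.comp f) (hj.comp f) u))
  · exact RE.cp_and (RE.cp_not (adj_cp (hE.comp f) (hi.comp f) u))
      (adj_cp (hE.comp f) (hj.comp f) u)

theorem t_REN : S_REN := by
  intro C hC
  have h1 := re_prods hC
  refine ⟨h1, ?_⟩
  unfold NT
  refine RE.and ?_ ?_
  · have h2 : REPred fun k : Pres => Prods C C k ∨ IsZ (PG k) := Pool.Agent.L0h57.GI.re_D h1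
    exact RE.all_mem (α := LG) (p := fun (_ : LG) k => Prods C C k ∨ IsZ (PG k))
      (RE.comp (p := fun k : Pres => Prods C C k ∨ IsZ (PG k)) h2 Computable.snd)
      Computable.fst
  · refine REPred.of_eq ?_ fun x => (notw_iff x).symm
    have hn : Computable fun x : LG => x.1.length := Computable.list_length.comp Computable.fst
    refine RE.all_lt (α := LG) (p := fun x i => ∀ j, j < x.1.length → tw x i j) ?_ hn
    refine RE.all_lt (α := LG × ℕ) (p := fun y j => tw y.1 y.2 j) ?_ (hn.comp Computable.fst)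
    exact re_tw

end Pool.Agent.L0h61.GI
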