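import Pool.Agent.L0h38.GI.Stm

/-!
# Project GI, module BST: groups with property FA in amalgams
-/

set_option autoImplicit false

namespace Pool.Agent.L0h61.GI

open Pool.Agent.L0h29.AL Pool.Agent.L0h38.GI

section tree

variable {G : Type} [Group G] (S : Amal G)

/-- the vertices of the Bass-Serre tree -/
abbrev BV : Type := Σ τ : Bool, G ⧸ S.A τ

/-- a vertex -/
def bv (τ : Bool) (g : G) : BV S := ⟨τ, (g : G ⧸ S.A τ)⟩

variable {S} in
theorem bv_eq {τ τ' : Bool} {g g' : G} : bv S τ g = bv S τ' g' ↔ τ = τ' ∧ g⁻¹ * g' ∈ S.A τ := by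
  constructor
  · intro h
    obtain rfl : τ = τ' := congrArg Sigma.fst h
    refine ⟨rfl, ?_⟩
    have h2 : (g : G ⧸ S.A τ) = (g' : G ⧸ S.A τ) := by
      have := Sigma.mk.inj_iff.1 h
      exact eq_of_heq this.2
    exact QuotientGroup.eq.1 h2
  · rintro ⟨rfl, h⟩
    unfold bv
    rw [QuotientGroup.eq.2 h]

theorem bv_surj (a : BV S) : ∃ g, a = bv S a.1 g := by
  obtain ⟨τ, a⟩ := a
  obtain ⟨g, rfl⟩ := QuotientGroup.mk_surjective a
  exact ⟨g, rfl⟩

/-- the Bass-Serre tree -/
def BT : SimpleGraph (BV S) where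
  Adj a b := ∃ (τ : Bool) (g : G), a = bv S τ g ∧ b = bv S (!τ) g
  symm := ⟨by
    rintro _ _ ⟨τ, g, rfl, rfl⟩
    exact ⟨!τ, g, rfl, by rw [Bool.not_not]⟩⟩
  loopless := ⟨by
    rintro a ⟨τ, g, h1, h2⟩
    rw [h1, bv_eq] at h2
    cases τ <;> simp at h2⟩

theorem adj_bv (τ : Bool) (g : G) : (BT S).Adj (bv S τ g) (bv S (!τ) g) := ⟨τ, g, rfl, rfl⟩

theorem reach (g : G) (τ : Bool) : (BT S).Reachable (bv S true 1) (bv S τ g) := by
  have h0 : ∀ (g : G) (τ : Bool), (BT S).Reachable (bv S true g) (bv S τ g) := by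
    intro g τ
    cases τ
    · exact (adj_bv S true g).reachable
    · exact SimpleGraph.Reachable.refl _
  have h1 : ∀ (g : G) (τ : Bool), ∀ a ∈ S.A τ,
      (BT S).Reachable (bv S true g) (bv S true (g * a)) := by
    intro g τ a ha
    have h2 : bv S τ g = bv S τ (g * a) := bv_eq.2 ⟨rfl, by simpa using ha⟩
    exact (h0 g τ).trans (h2 ▸ (h0 (g * a) τ).symm)
  have h3 : g ∈ Subgroup.closure ((S.A true : Set G) ∪ (S.A false : Set G)) := by
    rw [Subgroup.closure_union, Subgroup.closure_eq, Subgroup.closure_eq, S.gen]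
    exact Subgroup.mem_top _
  refine SimpleGraph.Reachable.trans ?_ (h0 g τ)
  induction h3 using Subgroup.closure_induction_right with
  | one => exact SimpleGraph.Reachable.refl _
  | mul_right x hx y hy ih =>
    rcases hy with hy | hy
    · exact ih.trans (h1 _ true y hy)
    · exact ih.trans (h1 _ false y hy)
  | mul_inv_cancel x hx y hy ih =>
    rcases hy with hy | hy
    · exact ih.trans (h1 _ true _ (inv_mem hy))
    · exact ih.trans (h1 _ false _ (inv_mem hy))

theorem path_word {v u : BV S} (p : (BT S).Walk v u) : p.IsPath → ∀ (τ : Bool) (g0 : G),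
    v = bv S τ g0 → s(v, bv S (!τ) g0) ∉ p.edges → v ≠ u →
    ∃ w : List (Bool × G), w ≠ [] ∧ (∀ x ∈ w, x.2 ∈ S.A x.1 ∧ x.2 ∉ S.C) ∧
      w.IsChain (fun x y => x.1 ≠ y.1) ∧ (∀ x ∈ w.head?, x.1 = τ) ∧
      ∃ τ', (∀ x ∈ w.getLast?, x.1 = !τ') ∧ u = bv S τ' (g0 * (w.map Prod.snd).prod) := by
  induction p with
  | nil => intro _ _ _ _ _ h; exact absurd rfl h
  | cons h p ih =>
    rename_i v v1 u
    intro hp τ g0 hv he hne
    rw [SimpleGraph.Walk.cons_isPath_iff] at hp
    rw [SimpleGraph.Walk.edges_cons, List.mem_cons, not_or] at he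
    obtain ⟨τ1, g1, hv1, hv2⟩ := h
    obtain rfl : τ = τ1 := (bv_eq.1 (hv.symm.trans hv1)).1
    have hx : g0⁻¹ * g1 ∈ S.A τ := (bv_eq.1 (hv.symm.trans hv1)).2
    have hxC : g0⁻¹ * g1 ∉ S.C := by
      intro hC
      apply he.1
      have h9 : bv S (!τ) g0 = bv S (!τ) g1 := bv_eq.2 ⟨rfl, S.le _ hC⟩
      rw [hv2, h9]
    by_cases h1 : v1 = u
    · refine ⟨[(τ, g0⁻¹ * g1)], by simp, by simpa using ⟨hx, hxC⟩, by simp, by simp, !τ, by simp, ?_⟩
      rw [← h1, hv2]
      simp
    · have he2 : s(v1, bv S (!!τ) g1) ∉ p.edges := by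
        rw [Bool.not_not, ← hv1]
        intro hmem
        exact hp.2 (SimpleGraph.Walk.snd_mem_support_of_mem_edges _ hmem)
      obtain ⟨w, hw1, hw2, hw3, hw4, τ', hw5, hw6⟩ := ih hp.1 (!τ) g1 hv2 he2 h1
      refine ⟨(τ, g0⁻¹ * g1) :: w, by simp, ?_, ?_, by simp, τ', ?_, ?_⟩
      · intro x hx'
        rcases List.mem_cons.1 hx' with rfl | hx'
        · exact ⟨hx, hxC⟩
        · exact hw2 x hx'
      · cases w with
        | nil => exact absurd rfl hw1
        | cons y w =>
          refine List.IsChain.cons_cons ?_ hw3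
          have := hw4 y (by simp)
          rw [this]
          cases τ <;> simp
      · intro x hx'
        apply hw5
        cases w with
        | nil => exact absurd rfl hw1
        | cons y w => simpa using hx'
      · rw [hw6]
        simp [mul_assoc]

theorem isTree : (BT S).IsTree := by
  refine ⟨?_, ?_⟩
  · haveI : Nonempty (BV S) := ⟨bv S true 1⟩
    refine SimpleGraph.Connected.mk ?_
    intro a b
    obtain ⟨g, hg⟩ := bv_surj S a
    obtain ⟨h, hh⟩ := bv_surj S b
    rw [hg, hh]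
    exact (reach S g _).symm.trans (reach S h _)
  · intro v c hc
    cases c with
    | nil => exact SimpleGraph.Walk.IsCycle.not_of_nil hc
    | cons h p =>
      rename_i v1
      rw [SimpleGraph.Walk.cons_isCycle_iff] at hc
      have hne := h.ne
      obtain ⟨τ, g0, hv, hv1⟩ := h
      obtain ⟨w, hw1, hw2, hw3, hw4, τ', hw5, hw6⟩ := path_word S p hc.1 (!τ) g0 hv1 (by
        rw [Bool.not_not, ← hv, Sym2.eq_swap]
        exact hc.2) hne.symm
      rw [hv, bv_eq] at hw6
      obtain ⟨rfl, hw6⟩ := hw6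
      have h7 : (w.map Prod.snd).prod ∈ S.A τ := by simpa [← mul_assoc] using hw6
      have h8 : (w.map Prod.snd).prod ∉ S.C := S.red w hw1 hw2 hw3
      refine S.red (w ++ [(τ, ((w.map Prod.snd).prod)⁻¹)]) (by simp) ?_ ?_ ?_
      · intro x hx
        rw [List.mem_append, List.mem_singleton] at hx
        rcases hx with hx | rfl
        · exact hw2 x hx
        · exact ⟨inv_mem h7, fun h => h8 (by simpa using inv_mem h)⟩
      · rw [List.isChain_append]
        refine ⟨hw3, by simp, ?_⟩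
        intro x hx y hy
        simp only [List.head?_cons, Option.mem_def, Option.some.injEq] at hy
        subst hy
        rw [hw5 x hx]
        cases τ <;> simp
      · simp [S.C.one_mem]

end tree

theorem t_BST : S_BST := by
  intro G _ S X _ hX φ
  letI : MulAction X (BV S) := MulAction.compHom (BV S) φ
  have hact : ∀ (x : X) (τ : Bool) (g : G), x • bv S τ g = bv S τ (φ x * g) := fun x τ g => rfl
  obtain ⟨v, hv⟩ := hX (BV S) (BT S) (isTree S) (by
    rintro x _ _ ⟨τ, g, rfl, rfl⟩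
    exact ⟨τ, φ x * g, hact x τ g, hact x (!τ) g⟩) (by
    rintro x _ _ ⟨τ, g, rfl, rfl⟩ ⟨h1, -⟩
    rw [hact, bv_eq] at h1
    cases τ <;> simp at h1)
  obtain ⟨g, hg⟩ := bv_surj S v
  refine ⟨g, v.1, ?_⟩
  intro x
  have h1 := hv x
  rw [hg, hact, bv_eq] at h1
  have h2 := inv_mem h1.2
  have h3 : ((φ x * g)⁻¹ * g)⁻¹ = g⁻¹ * φ x * g := by group
  rwa [h3] at h2

end Pool.Agent.L0h61.GI
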