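import Pool.Agent.L0h38.GI.Stm

/-!
# Project GI, module KRS: uniqueness of the decomposition into centreless indecomposable factors
-/

set_option autoImplicit false

namespace Pool.Agent.L0h61.GI

open Pool.Agent.L0h38.GI

theorem krs_key {ι κ : Type} (A : ι → Type) (B : κ → Type) [∀ i, Group (A i)]
    [∀ j, Group (B j)] (hA : ∀ i, Cless (A i)) (e : (∀ i, A i) ≃* (∀ j, B j)) [DecidableEq ι]
    [DecidableEq κ] (i : ι) (j : κ) (a : A i) :
    ∃ b : A i, e (Pi.mulSingle i b) = Pi.mulSingle j (e (Pi.mulSingle i a) j) := by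
  obtain ⟨y, hy⟩ : ∃ y, e y = Pi.mulSingle j (e (Pi.mulSingle i a) j) := ⟨_, e.apply_symm_apply _⟩
  refine ⟨y i, ?_⟩
  have h1 : Pi.mulSingle i (y i) = y := by
    ext i'
    by_cases h : i' = i
    · subst h; simp
    · rw [Pi.mulSingle_eq_of_ne h]
      symm
      apply hA i' (y i')
      intro g
      have h2 : y * Pi.mulSingle i' g = Pi.mulSingle i' g * y := by
        apply e.injective
        rw [map_mul, map_mul, hy]
        ext j'
        by_cases hj : j' = j
        · subst hj
          simp only [Pi.mul_apply, Pi.mulSingle_eq_same]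
          have h3 : Pi.mulSingle i a * Pi.mulSingle i' g = Pi.mulSingle i' g * Pi.mulSingle i a :=
            Pi.mulSingle_commute (Ne.symm h) a g
          have := congrFun (congrArg e h3) j'
          rwa [map_mul, map_mul, Pi.mul_apply, Pi.mul_apply] at this
        · simp [Pi.mulSingle_eq_of_ne hj]
      have := congrFun h2 i'
      simpa using this
  rw [h1, hy]

theorem krs_half {ι κ : Type} (A : ι → Type) (B : κ → Type) [∀ i, Group (A i)]
    [∀ j, Group (B j)] (hA : ∀ i, Cless (A i)) (e : (∀ i, A i) ≃* (∀ j, B j)) (i : ι)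
    (hI : Indec (A i)) :
    ∃ j, ∀ z : ∀ i, A i, (∀ i', i' ≠ i → z i' = 1) → ∀ j', j' ≠ j → e z j' = 1 := by
  classical
  set f : A i →* (∀ j, B j) := e.toMonoidHom.comp (MonoidHom.mulSingle A i) with hf
  have hfe : ∀ a, f a = e (Pi.mulSingle i a) := fun a => rfl
  have hfi : Function.Injective f := fun a b h =>
    Pi.mulSingle_injective (M := A) i (e.injective h)
  have key : ∀ j (a : A i), ∃ b : A i, f b = Pi.mulSingle j (f a j) := fun j a =>
    krs_key A B hA e i j a
  have main : ∀ j, (∀ a, f a j = 1) ∨ (∀ a, f a = Pi.mulSingle j (f a j)) := by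
    intro j
    let X : Subgroup (A i) :=
      { carrier := {a | f a = Pi.mulSingle j (f a j)}
        one_mem' := by simp
        mul_mem' := by
          intro a b ha hb
          simp only [Set.mem_setOf_eq] at ha hb ⊢
          rw [map_mul, Pi.mul_apply, Pi.mulSingle_mul, ← ha, ← hb]
        inv_mem' := by
          intro a ha
          simp only [Set.mem_setOf_eq] at ha ⊢
          rw [map_inv, Pi.inv_apply, Pi.mulSingle_inv, ← ha] }
    let Y : Subgroup (A i) := ((Pi.evalMonoidHom B j).comp f).ker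
    have hX : ∀ a, a ∈ X ↔ f a = Pi.mulSingle j (f a j) := fun a => Iff.rfl
    have hY : ∀ a, a ∈ Y ↔ f a j = 1 := fun a => Iff.rfl
    have hcomm : ∀ (x : X) (y : Y), Commute (X.subtype x) (Y.subtype y) := by
      rintro ⟨x, hx⟩ ⟨y, hy⟩
      apply hfi
      show f (x * y) = f (y * x)
      rw [map_mul, map_mul]
      ext j'
      rw [hX] at hx
      rw [hY] at hy
      by_cases hj : j' = j
      · subst hj; simp [hy]
      · have : f x j' = 1 := by rw [hx, Pi.mulSingle_eq_of_ne hj]
        simp [this]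
    let g : X × Y →* A i := MonoidHom.noncommCoprod X.subtype Y.subtype hcomm
    have hg : ∀ p : X × Y, g p = p.1.1 * p.2.1 := fun p => rfl
    have hginj : Function.Injective g := by
      rw [injective_iff_map_eq_one]
      rintro ⟨⟨x, hx⟩, ⟨y, hy⟩⟩ h
      rw [hg] at h
      simp only at h
      have h2 : f x * f y = 1 := by rw [← map_mul, h, map_one]
      have h3 : f x = 1 := by
        rw [hX] at hx
        have h4 := congrFun h2 j
        rw [Pi.mul_apply, (hY _).1 hy, mul_one] at h4
        rw [hx, h4]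
        simp
      have h5 : x = 1 := hfi (by rw [h3, map_one])
      subst h5
      rw [one_mul] at h
      subst h
      rfl
    have hgsurj : Function.Surjective g := by
      intro a
      obtain ⟨b, hb⟩ := key j a
      have hbj : f b j = f a j := by rw [hb]; simp
      refine ⟨⟨⟨b, ?_⟩, ⟨b⁻¹ * a, ?_⟩⟩, ?_⟩
      · rw [hX, hbj, hb]
      · rw [hY, map_mul, map_inv, Pi.mul_apply, Pi.inv_apply, hbj, inv_mul_cancel]
      · rw [hg]; simp
    rcases hI.2 X Y ⟨(MulEquiv.ofBijective g ⟨hginj, hgsurj⟩).symm⟩ with h | h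
    · left
      intro a
      obtain ⟨b, hb⟩ := key j a
      have hbj : f b j = f a j := by rw [hb]; simp
      have h1 := h ⟨b, by rw [hX, hbj, hb]⟩
      have h2 : b = 1 := congrArg Subtype.val h1
      rw [← hbj, h2]
      simp
    · right
      intro a
      obtain ⟨b, hb⟩ := key j a
      have hbj : f b j = f a j := by rw [hb]; simp
      have h1 := h ⟨b⁻¹ * a, by rw [hY, map_mul, map_inv, Pi.mul_apply, Pi.inv_apply, hbj,
        inv_mul_cancel]⟩
      have h2 : b⁻¹ * a = 1 := congrArg Subtype.val h1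
      rw [inv_mul_eq_one] at h2
      rw [← h2, hbj, hb]
  obtain ⟨a, ha⟩ := hI.1
  have h1 : f a ≠ 1 := fun h => ha (hfi (by rw [h, map_one]))
  obtain ⟨j, hj⟩ := Function.ne_iff.1 h1
  refine ⟨j, ?_⟩
  rcases main j with h | h
  · exact absurd (h a) hj
  · intro z hz j' hj'
    have hz2 : z = Pi.mulSingle i (z i) := by
      ext i'
      by_cases h : i' = i
      · subst h; simp
      · rw [Pi.mulSingle_eq_of_ne h, hz i' h]
    rw [hz2, ← hfe, h (z i), Pi.mulSingle_eq_of_ne hj']

theorem t_KRS : S_KRS := by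
  intro ι κ _ _ A B _ _ hA1 hA2 hB1 hB2 e i
  classical
  obtain ⟨j, hj⟩ := krs_half A B hA1 e i (hA2 i)
  obtain ⟨i2, hi2⟩ := krs_half B A hB1 e.symm j (hB2 j)
  have hii : i2 = i := by
    by_contra hne
    obtain ⟨a, ha⟩ := (hA2 i).1
    have h1 : ∀ i', i' ≠ i → (Pi.mulSingle i a : ∀ i, A i) i' = 1 := fun i' h =>
      Pi.mulSingle_eq_of_ne h _
    have h2 := hi2 _ (hj _ h1) i (Ne.symm hne)
    rw [e.symm_apply_apply, Pi.mulSingle_eq_same] at h2
    exact ha h2
  subst hii
  refine ⟨j, fun z => ⟨hj z, fun h => ?_⟩⟩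
  have h2 := hi2 _ h
  rwa [e.symm_apply_apply] at h2

end Pool.Agent.L0h61.GI
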